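import Mathlib
import Pool.Agent.N912.PY.Stm

/-!
# Project PY (helper912), part CB (helper124): counting in residue classes
-/

set_option autoImplicit false

namespace Pool.Agent.N124.PY

open Finset Pool.Agent.N912.PY

/-- residue classes in an interval -/
theorem cls_Ico (A B V p : ℕ) (hV : 1 ≤ V) (hp : 1 ≤ p) (hc : Nat.Coprime V p) (a r : ℕ) :
    p * (((Ico A B).filter (fun m => m ≡ a [MOD V])).filter (fun m => m ≡ r [MOD p])).card ≤
      ((Ico A B).filter (fun m => m ≡ a [MOD V])).card + 2 * p := by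
  obtain ⟨c, hc1, hc2⟩ := Nat.chineseRemainder hc a r
  have h1 : ((Ico A B).filter (fun m => m ≡ a [MOD V])).filter (fun m => m ≡ r [MOD p]) =
      (Ico A B).filter (fun m => m ≡ c [MOD (V * p)]) := by
    rw [filter_filter]
    apply filter_congr
    intro m _
    constructor
    · rintro ⟨h1, h2⟩
      exact (Nat.modEq_and_modEq_iff_modEq_mul hc).1 ⟨h1.trans hc1.symm, h2.trans hc2.symm⟩
    · intro h
      obtain ⟨h1, h2⟩ := (Nat.modEq_and_modEq_iff_modEq_mul hc).2 h
      exact ⟨h1.trans hc1, h2.trans hc2⟩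
  rw [h1]
  rcases le_or_gt B A with hBA | hAB
  · rw [Ico_eq_empty (by omega)]; simp
  have hVp : 0 < V * p := Nat.mul_pos (by omega) (by omega)
  have e1 := Nat.Ico_filter_modEq_card A B (r := V) (by omega) a
  have e2 := Nat.Ico_filter_modEq_card A B (r := V * p) hVp c
  have q1 : (((Ico A B).filter (fun m => m ≡ a [MOD V])).card : ℚ) ≥
      ((B : ℚ) - A) / V - 1 := by
    have : ((((Ico A B).filter (fun m => m ≡ a [MOD V])).card : ℤ) : ℚ) ≥
        ((⌈((B : ℚ) - a) / V⌉ - ⌈((A : ℚ) - a) / V⌉ : ℤ) : ℚ) := by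
      rw [e1]; exact_mod_cast le_max_left _ _
    have h2 := Int.le_ceil (((B : ℚ) - a) / V)
    have h3 := Int.ceil_lt_add_one (((A : ℚ) - a) / V)
    have h4 : ((B : ℚ) - A) / V = ((B : ℚ) - a) / V - ((A : ℚ) - a) / V := by ring
    push_cast at this ⊢
    rw [h4]; linarith
  have q2 : (((Ico A B).filter (fun m => m ≡ c [MOD (V * p)])).card : ℚ) ≤
      ((B : ℚ) - A) / (V * p) + 1 := by
    have hh : ((((Ico A B).filter (fun m => m ≡ c [MOD (V * p)])).card : ℤ) : ℚ) =
        ((max (⌈((B : ℚ) - c) / ((V * p : ℕ) : ℚ)⌉ - ⌈((A : ℚ) - c) / ((V * p : ℕ) : ℚ)⌉) 0 : ℤ) : ℚ) := by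
      rw [e2]
    have h2 := Int.ceil_lt_add_one (((B : ℚ) - c) / ((V * p : ℕ) : ℚ))
    have h3 := Int.le_ceil (((A : ℚ) - c) / ((V * p : ℕ) : ℚ))
    have h4 : ((B : ℚ) - A) / (V * p) = ((B : ℚ) - c) / ((V * p : ℕ) : ℚ) -
        ((A : ℚ) - c) / ((V * p : ℕ) : ℚ) := by push_cast; ring
    have h5 : (0 : ℚ) ≤ ((B : ℚ) - A) / (V * p) := by
      apply div_nonneg
      · have : (A : ℚ) ≤ B := by exact_mod_cast hAB.le
        linarith
      · positivity
    rw [Int.cast_max] at hh
    push_cast at hh h2 h3 h4 ⊢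
    rw [hh]
    apply max_le
    · linarith
    · linarith
  have hV' : (0 : ℚ) < V := by exact_mod_cast hV
  have hp' : (1 : ℚ) ≤ p := by exact_mod_cast hp
  have q3 : (p : ℚ) * (((Ico A B).filter (fun m => m ≡ c [MOD (V * p)])).card : ℚ) ≤
      (((Ico A B).filter (fun m => m ≡ a [MOD V])).card : ℚ) + 2 * p := by
    calc (p : ℚ) * (((Ico A B).filter (fun m => m ≡ c [MOD (V * p)])).card : ℚ)
        ≤ p * (((B : ℚ) - A) / (V * p) + 1) := by gcongr
      _ = ((B : ℚ) - A) / V + p := by field_simp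
      _ ≤ _ := by linarith
  exact_mod_cast q3

/-- residue classes in a set without gaps -/
theorem cls (T : Finset ℕ) (hT : ∀ a ∈ T, ∀ b ∈ T, ∀ c, a ≤ c → c ≤ b → c ∈ T) (V p : ℕ)
    (hV : 1 ≤ V) (hp : 1 ≤ p) (hc : Nat.Coprime V p) (a r : ℕ) :
    p * ((T.filter (fun m => m ≡ a [MOD V])).filter (fun m => m ≡ r [MOD p])).card ≤
      (T.filter (fun m => m ≡ a [MOD V])).card + 2 * p := by
  rcases T.eq_empty_or_nonempty with rfl | hne
  · simp
  have : T = Ico (T.min' hne) (T.max' hne + 1) := by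
    ext c
    rw [mem_Ico]
    constructor
    · intro h
      exact ⟨min'_le _ _ h, Nat.lt_succ_of_le (le_max' _ _ h)⟩
    · rintro ⟨h1, h2⟩
      exact hT _ (min'_mem _ hne) _ (max'_mem _ hne) c h1 (Nat.le_of_lt_succ h2)
  rw [this]
  exact cls_Ico _ _ V p hV hp hc a r

/-- the residue classes which satisfy `t^5 = c^4 t` -/
theorem roots5 (p : ℕ) [Fact p.Prime] (c : ZMod p) :
    ((univ : Finset (ZMod p)).filter (fun t => t ^ 5 = c ^ 4 * t)).card ≤ 5 := by
  classical
  set P : Polynomial (ZMod p) := Polynomial.X ^ 5 - Polynomial.C (c ^ 4) * Polynomial.X with hP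
  have hdeg : P.natDegree = 5 := by
    rw [hP]; compute_degree!
  have hne : P ≠ 0 := by
    intro h; rw [h] at hdeg; simp at hdeg
  have hsub : ((univ : Finset (ZMod p)).filter (fun t => t ^ 5 = c ^ 4 * t)) ⊆ P.roots.toFinset := by
    intro t ht
    rw [mem_filter] at ht
    rw [Multiset.mem_toFinset, Polynomial.mem_roots hne, Polynomial.IsRoot.def, hP]
    simp [ht.2]
  calc _ ≤ P.roots.toFinset.card := card_le_card hsub
    _ ≤ Multiset.card P.roots := Multiset.toFinset_card_le _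
    _ ≤ P.natDegree := Polynomial.card_roots' _
    _ = 5 := hdeg

/-- the square roots of `-c²` -/
theorem roots2 (p : ℕ) [Fact p.Prime] (c : ZMod p) :
    ((univ : Finset (ZMod p)).filter (fun t => t ^ 2 = c)).card ≤ 2 := by
  classical
  set P : Polynomial (ZMod p) := Polynomial.X ^ 2 - Polynomial.C c with hP
  have hdeg : P.natDegree = 2 := by
    rw [hP]; compute_degree!
  have hne : P ≠ 0 := by
    intro h; rw [h] at hdeg; simp at hdeg
  have hsub : ((univ : Finset (ZMod p)).filter (fun t => t ^ 2 = c)) ⊆ P.roots.toFinset := by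
    intro t ht
    rw [mem_filter] at ht
    rw [Multiset.mem_toFinset, Polynomial.mem_roots hne, Polynomial.IsRoot.def, hP]
    simp [ht.2]
  calc _ ≤ P.roots.toFinset.card := card_le_card hsub
    _ ≤ Multiset.card P.roots := Multiset.toFinset_card_le _
    _ ≤ P.natDegree := Polynomial.card_roots' _
    _ = 2 := hdeg

end Pool.Agent.N124.PY
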