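import Pool.Agent.N124.PY.A

/-!
# Project PY (helper912), part CB (helper124): a fixed prime
-/

set_option autoImplicit false

namespace Pool.Agent.N124.PY

open Finset Pool.Agent.N912.PY

/-- sections with fixed `n` -/
theorem slice1 (R a₀ b₀ V x p : ℕ) (hV : 1 ≤ V) (hp : 1 ≤ p) (hc : Nat.Coprime V p) (n r : ℕ) :
    p * (((sec R a₀ b₀ V x).filter (fun z => z.2 = n)).filter (fun z => z.1 ≡ r [MOD p])).card ≤
      ((sec R a₀ b₀ V x).filter (fun z => z.2 = n)).card + 2 * p := by
  by_cases hn : Nat.Coprime n V ∧ 1 ≤ n ∧ n ≤ x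
  · obtain ⟨hnV, hn1, hnx⟩ := hn
    set T : Finset ℕ := (Icc 1 (a₀ * x)).filter (fun m => R * n ≤ m ∧ b₀ * m ≤ a₀ * n) with hT
    have hconv : ∀ a ∈ T, ∀ b ∈ T, ∀ c, a ≤ c → c ≤ b → c ∈ T := by
      intro a ha b hb c hac hcb
      rw [hT, mem_filter, mem_Icc] at ha hb ⊢
      refine ⟨⟨by omega, by omega⟩, by omega, ?_⟩
      exact (Nat.mul_le_mul_left _ hcb).trans hb.2.2
    have hmem : ∀ m, m ∈ T.filter (fun m => m ≡ n [MOD V]) ↔ (m, n) ∈ sec R a₀ b₀ V x := by
      intro m
      rw [mem_filter, hT, mem_filter, sec, mem_filter, mem_product, mem_Icc, mem_Icc]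
      constructor
      · rintro ⟨⟨⟨h1, h2⟩, h3, h4⟩, h5⟩
        refine ⟨⟨⟨h1, h2⟩, hn1, hnx⟩, h3, h4, h5.symm, ?_⟩
        exact (Nat.ModEq.gcd_eq h5).trans hnV
      · rintro ⟨⟨⟨h1, h2⟩, -⟩, h3, h4, h5, h6⟩
        exact ⟨⟨⟨h1, h2⟩, h3, h4⟩, h5.symm⟩
    have key := cls T hconv V p hV hp hc n r
    have e1 : ((sec R a₀ b₀ V x).filter (fun z => z.2 = n)).card =
        (T.filter (fun m => m ≡ n [MOD V])).card := by
      apply card_nbij' (fun z => z.1) (fun m => (m, n))
      · intro z hz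
        simp only [coe_filter, Set.mem_ofPred_eq] at hz
        have : z = (z.1, n) := by rw [← hz.2]
        simp only [mem_coe]
        rw [hmem, ← this]; exact hz.1
      · intro m hm
        simp only [mem_coe] at hm
        simp only [coe_filter, Set.mem_ofPred_eq]
        exact ⟨(hmem m).1 hm, trivial⟩
      · intro z hz
        simp only [coe_filter, Set.mem_ofPred_eq] at hz
        simp [← hz.2]
      · intro m _; rfl
    have e2 : (((sec R a₀ b₀ V x).filter (fun z => z.2 = n)).filter (fun z => z.1 ≡ r [MOD p])).card =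
        ((T.filter (fun m => m ≡ n [MOD V])).filter (fun m => m ≡ r [MOD p])).card := by
      apply card_nbij' (fun z => z.1) (fun m => (m, n))
      · intro z hz
        simp only [coe_filter, Set.mem_ofPred_eq, mem_filter] at hz
        have : z = (z.1, n) := by rw [← hz.1.2]
        simp only [mem_coe]
        rw [mem_filter, hmem, ← this]; exact ⟨hz.1.1, hz.2⟩
      · intro m hm
        simp only [mem_coe] at hm
        rw [mem_filter] at hm
        simp only [coe_filter, Set.mem_ofPred_eq, mem_filter]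
        exact ⟨⟨(hmem m).1 hm.1, trivial⟩, hm.2⟩
      · intro z hz
        simp only [coe_filter, Set.mem_ofPred_eq, mem_filter] at hz
        simp [← hz.1.2]
      · intro m _; rfl
    rw [e1, e2]; exact key
  · have : (sec R a₀ b₀ V x).filter (fun z => z.2 = n) = ∅ := by
      rw [filter_eq_empty_iff]
      rintro ⟨m, k⟩ hz rfl
      apply hn
      rw [sec, mem_filter, mem_product, mem_Icc, mem_Icc] at hz
      obtain ⟨⟨-, h1, h2⟩, -, -, h5, h6⟩ := hz
      exact ⟨(Nat.ModEq.gcd_eq h5).trans h6, h1, h2⟩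
    rw [this]; simp

/-- sections with fixed `m` -/
theorem slice2 (R a₀ b₀ V x p : ℕ) (hV : 1 ≤ V) (hp : 1 ≤ p) (hc : Nat.Coprime V p) (m r : ℕ) :
    p * (((sec R a₀ b₀ V x).filter (fun z => z.1 = m)).filter (fun z => z.2 ≡ r [MOD p])).card ≤
      ((sec R a₀ b₀ V x).filter (fun z => z.1 = m)).card + 2 * p := by
  by_cases hm : Nat.Coprime m V ∧ 1 ≤ m ∧ m ≤ a₀ * x
  · obtain ⟨hmV, hm1, hmx⟩ := hm
    set T : Finset ℕ := (Icc 1 x).filter (fun n => R * n ≤ m ∧ b₀ * m ≤ a₀ * n) with hT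
    have hconv : ∀ a ∈ T, ∀ b ∈ T, ∀ c, a ≤ c → c ≤ b → c ∈ T := by
      intro a ha b hb c hac hcb
      rw [hT, mem_filter, mem_Icc] at ha hb ⊢
      refine ⟨⟨by omega, by omega⟩, ?_, ?_⟩
      · exact (Nat.mul_le_mul_left _ hcb).trans hb.2.1
      · exact ha.2.2.trans (Nat.mul_le_mul_left _ hac)
    have hmem : ∀ n, n ∈ T.filter (fun n => n ≡ m [MOD V]) ↔ (m, n) ∈ sec R a₀ b₀ V x := by
      intro n
      rw [mem_filter, hT, mem_filter, sec, mem_filter, mem_product, mem_Icc, mem_Icc]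
      constructor
      · rintro ⟨⟨⟨h1, h2⟩, h3, h4⟩, h5⟩
        exact ⟨⟨⟨hm1, hmx⟩, h1, h2⟩, h3, h4, h5, hmV⟩
      · rintro ⟨⟨-, h1, h2⟩, h3, h4, h5, h6⟩
        exact ⟨⟨⟨h1, h2⟩, h3, h4⟩, h5⟩
    have key := cls T hconv V p hV hp hc m r
    have e1 : ((sec R a₀ b₀ V x).filter (fun z => z.1 = m)).card =
        (T.filter (fun n => n ≡ m [MOD V])).card := by
      apply card_nbij' (fun z => z.2) (fun n => (m, n))
      · intro z hz
        simp only [coe_filter, Set.mem_ofPred_eq] at hz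
        have : z = (m, z.2) := by rw [← hz.2]
        simp only [mem_coe]
        rw [hmem, ← this]; exact hz.1
      · intro n hn
        simp only [mem_coe] at hn
        simp only [coe_filter, Set.mem_ofPred_eq]
        exact ⟨(hmem n).1 hn, trivial⟩
      · intro z hz
        simp only [coe_filter, Set.mem_ofPred_eq] at hz
        simp [← hz.2]
      · intro m _; rfl
    have e2 : (((sec R a₀ b₀ V x).filter (fun z => z.1 = m)).filter (fun z => z.2 ≡ r [MOD p])).card =
        ((T.filter (fun n => n ≡ m [MOD V])).filter (fun n => n ≡ r [MOD p])).card := by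
      apply card_nbij' (fun z => z.2) (fun n => (m, n))
      · intro z hz
        simp only [coe_filter, Set.mem_ofPred_eq, mem_filter] at hz
        have : z = (m, z.2) := by rw [← hz.1.2]
        simp only [mem_coe]
        rw [mem_filter, hmem, ← this]; exact ⟨hz.1.1, hz.2⟩
      · intro n hn
        simp only [mem_coe] at hn
        rw [mem_filter] at hn
        simp only [coe_filter, Set.mem_ofPred_eq, mem_filter]
        exact ⟨⟨(hmem n).1 hn.1, trivial⟩, hn.2⟩
      · intro z hz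
        simp only [coe_filter, Set.mem_ofPred_eq, mem_filter] at hz
        simp [← hz.1.2]
      · intro m _; rfl
    rw [e1, e2]; exact key
  · have : (sec R a₀ b₀ V x).filter (fun z => z.1 = m) = ∅ := by
      rw [filter_eq_empty_iff]
      rintro ⟨k, n⟩ hz rfl
      apply hm
      rw [sec, mem_filter, mem_product, mem_Icc, mem_Icc] at hz
      obtain ⟨⟨⟨h1, h2⟩, -⟩, -, -, -, h6⟩ := hz
      exact ⟨h6, h1, h2⟩
    rw [this]; simp

/-- the pairs with `p ∣ n` -/
theorem bad_n (R a₀ b₀ V x p : ℕ) (hV : 1 ≤ V) (hp : 1 ≤ p) (hc : Nat.Coprime V p) :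
    p * ((sec R a₀ b₀ V x).filter (fun z => p ∣ z.2)).card ≤
      (sec R a₀ b₀ V x).card + 2 * p * (a₀ * x) := by
  have h1 : ((sec R a₀ b₀ V x).filter (fun z => p ∣ z.2)).card =
      ∑ m ∈ Icc 1 (a₀ * x), (((sec R a₀ b₀ V x).filter (fun z => p ∣ z.2)).filter
        (fun z => z.1 = m)).card := by
    apply card_eq_sum_card_fiberwise
    intro z hz
    simp only [coe_filter, Set.mem_ofPred_eq, sec, mem_filter, mem_product] at hz
    exact mem_coe.2 hz.1.1.1
  have h2 : (sec R a₀ b₀ V x).card =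
      ∑ m ∈ Icc 1 (a₀ * x), ((sec R a₀ b₀ V x).filter (fun z => z.1 = m)).card := by
    apply card_eq_sum_card_fiberwise
    intro z hz
    simp only [mem_coe, sec, mem_filter, mem_product] at hz
    exact mem_coe.2 hz.1.1
  rw [h1, mul_sum]
  calc ∑ m ∈ Icc 1 (a₀ * x), p * (((sec R a₀ b₀ V x).filter (fun z => p ∣ z.2)).filter
        (fun z => z.1 = m)).card
      ≤ ∑ m ∈ Icc 1 (a₀ * x), (((sec R a₀ b₀ V x).filter (fun z => z.1 = m)).card + 2 * p) := by
        apply sum_le_sum
        intro m _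
        have := slice2 R a₀ b₀ V x p hV hp hc m 0
        refine le_trans (Nat.mul_le_mul_left _ (card_le_card ?_)) this
        intro z hz
        simp only [mem_filter] at hz ⊢
        exact ⟨⟨hz.1.1, hz.2⟩, (Nat.modEq_zero_iff_dvd).2 hz.1.2⟩
    _ = (sec R a₀ b₀ V x).card + 2 * p * (a₀ * x) := by
        rw [sum_add_distrib, ← h2, sum_const, Nat.card_Icc]
        simp only [smul_eq_mul]
        congr 1
        rw [Nat.add_sub_cancel]; ring

/-- the pairs with `m⁵ ≡ (hn)⁴ m` -/
theorem bad_m (R a₀ b₀ V x p h : ℕ) (hV : 1 ≤ V) [Fact p.Prime] (hc : Nat.Coprime V p) :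
    p * ((sec R a₀ b₀ V x).filter
      (fun z => (z.1 : ZMod p) ^ 5 = ((h : ZMod p) * z.2) ^ 4 * z.1)).card ≤
      5 * (sec R a₀ b₀ V x).card + 10 * p * x := by
  have hp : 1 ≤ p := (Fact.out : p.Prime).one_lt.le
  have h1 : ((sec R a₀ b₀ V x).filter
      (fun z => (z.1 : ZMod p) ^ 5 = ((h : ZMod p) * z.2) ^ 4 * z.1)).card =
      ∑ n ∈ Icc 1 x, (((sec R a₀ b₀ V x).filter
      (fun z => (z.1 : ZMod p) ^ 5 = ((h : ZMod p) * z.2) ^ 4 * z.1)).filter
        (fun z => z.2 = n)).card := by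
    apply card_eq_sum_card_fiberwise
    intro z hz
    simp only [coe_filter, Set.mem_ofPred_eq, sec, mem_filter, mem_product] at hz
    exact mem_coe.2 hz.1.1.2
  have h2 : (sec R a₀ b₀ V x).card =
      ∑ n ∈ Icc 1 x, ((sec R a₀ b₀ V x).filter (fun z => z.2 = n)).card := by
    apply card_eq_sum_card_fiberwise
    intro z hz
    simp only [mem_coe, sec, mem_filter, mem_product] at hz
    exact mem_coe.2 hz.1.2
  rw [h1, mul_sum]
  calc ∑ n ∈ Icc 1 x, p * (((sec R a₀ b₀ V x).filter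
      (fun z => (z.1 : ZMod p) ^ 5 = ((h : ZMod p) * z.2) ^ 4 * z.1)).filter
        (fun z => z.2 = n)).card
      ≤ ∑ n ∈ Icc 1 x, (5 * (((sec R a₀ b₀ V x).filter (fun z => z.2 = n)).card + 2 * p)) := by
        apply sum_le_sum
        intro n _
        set Rt := ((univ : Finset (ZMod p)).filter (fun t => t ^ 5 = ((h : ZMod p) * n) ^ 4 * t))
          with hRt
        have hsub : (((sec R a₀ b₀ V x).filter
            (fun z => (z.1 : ZMod p) ^ 5 = ((h : ZMod p) * z.2) ^ 4 * z.1)).filter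
            (fun z => z.2 = n)) ⊆ Rt.biUnion (fun t =>
              ((sec R a₀ b₀ V x).filter (fun z => z.2 = n)).filter
                (fun z => z.1 ≡ t.val [MOD p])) := by
          intro z hz
          simp only [mem_filter] at hz
          rw [mem_biUnion]
          refine ⟨(z.1 : ZMod p), ?_, ?_⟩
          · rw [hRt, mem_filter]
            refine ⟨mem_univ _, ?_⟩
            rw [← hz.2]; exact hz.1.2
          · simp only [mem_filter]
            refine ⟨⟨hz.1.1, hz.2⟩, ?_⟩
            rw [← ZMod.natCast_eq_natCast_iff]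
            simp
        calc _ ≤ p * (Rt.biUnion (fun t =>
              ((sec R a₀ b₀ V x).filter (fun z => z.2 = n)).filter
                (fun z => z.1 ≡ t.val [MOD p]))).card := Nat.mul_le_mul_left _ (card_le_card hsub)
          _ ≤ p * ∑ t ∈ Rt, (((sec R a₀ b₀ V x).filter (fun z => z.2 = n)).filter
                (fun z => z.1 ≡ t.val [MOD p])).card := Nat.mul_le_mul_left _ card_biUnion_le
          _ = ∑ t ∈ Rt, p * (((sec R a₀ b₀ V x).filter (fun z => z.2 = n)).filter
                (fun z => z.1 ≡ t.val [MOD p])).card := mul_sum _ _ _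
          _ ≤ ∑ t ∈ Rt, (((sec R a₀ b₀ V x).filter (fun z => z.2 = n)).card + 2 * p) :=
              sum_le_sum (fun t _ => slice1 R a₀ b₀ V x p hV hp hc n t.val)
          _ = Rt.card * (((sec R a₀ b₀ V x).filter (fun z => z.2 = n)).card + 2 * p) := by
              rw [sum_const, smul_eq_mul]
          _ ≤ _ := Nat.mul_le_mul_right _ (roots5 p _)
    _ = 5 * (sec R a₀ b₀ V x).card + 10 * p * x := by
        rw [← mul_sum, sum_add_distrib, ← h2, sum_const, Nat.card_Icc]
        simp only [smul_eq_mul]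
        rw [Nat.add_sub_cancel]; ring

/-- the product of all the forms -/
def prd (h : ℕ) (z : ℕ × ℕ) : ℕ :=
  z.1 * z.2 * ((z.1 - h * z.2) * (z.1 + h * z.2)) * (z.1 ^ 2 + h ^ 2 * z.2 ^ 2)

/-- a fixed prime -/
theorem fixed (R a₀ b₀ V x p h : ℕ) (hV : 1 ≤ V) (hR : h < R) (hp : p.Prime)
    (hc : Nat.Coprime V p) :
    p * ((sec R a₀ b₀ V x).filter (fun z => p ∣ prd h z)).card ≤
      6 * (sec R a₀ b₀ V x).card + p * ((2 * a₀ + 10) * x) := by
  have : Fact p.Prime := ⟨hp⟩
  have hsub : (sec R a₀ b₀ V x).filter (fun z => p ∣ prd h z) ⊆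
      ((sec R a₀ b₀ V x).filter (fun z => p ∣ z.2)) ∪ ((sec R a₀ b₀ V x).filter
      (fun z => (z.1 : ZMod p) ^ 5 = ((h : ZMod p) * z.2) ^ 4 * z.1)) := by
    rintro ⟨m, n⟩ hz
    rw [mem_filter] at hz
    obtain ⟨hs, hd⟩ := hz
    rw [mem_union, mem_filter, mem_filter]
    by_cases hn : p ∣ n
    · left; exact ⟨hs, hn⟩
    · right
      refine ⟨hs, ?_⟩
      have hle : h * n ≤ m := by
        rw [sec, mem_filter] at hs
        have := hs.2.1
        simp only at this
        exact (Nat.mul_le_mul_right n hR.le).trans this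
      have hd' : ((prd h (m, n) : ℕ) : ZMod p) = 0 := (ZMod.natCast_eq_zero_iff _ _).2 hd
      have hn' : ((n : ℕ) : ZMod p) ≠ 0 := fun h0 => hn ((ZMod.natCast_eq_zero_iff _ _).1 h0)
      simp only [prd] at hd'
      push_cast [Nat.cast_sub hle] at hd'
      have : (n : ZMod p) * ((m : ZMod p) ^ 5 - ((h : ZMod p) * n) ^ 4 * m) = 0 := by
        rw [← hd']; ring
      rcases mul_eq_zero.1 this with h0 | h0
      · exact absurd h0 hn'
      · exact sub_eq_zero.1 h0
  have h1 := bad_n R a₀ b₀ V x p hV hp.one_lt.le hc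
  have h2 := bad_m R a₀ b₀ V x p h hV hc
  calc _ ≤ p * (((sec R a₀ b₀ V x).filter (fun z => p ∣ z.2)).card +
        ((sec R a₀ b₀ V x).filter
      (fun z => (z.1 : ZMod p) ^ 5 = ((h : ZMod p) * z.2) ^ 4 * z.1)).card) :=
        Nat.mul_le_mul_left _ ((card_le_card hsub).trans (card_union_le _ _))
    _ ≤ _ := by
        rw [mul_add]
        nlinarith

end Pool.Agent.N124.PY
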