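import Pool.Agent.N124.PY.B

/-!
# Project PY (helper912), part CB (helper124): few pairs have a prime factor in a thin set
-/

set_option autoImplicit false

namespace Pool.Agent.N124.PY

open Finset Pool.Agent.N912.PY

theorem mult_card (N p : ℕ) : p * ((Ioc 0 N).filter (fun m => p ∣ m)).card ≤ N := by
  rw [Nat.Ioc_filter_dvd_card_eq_div]
  exact Nat.mul_div_le N p

theorem inj_bound (U : Finset (ℕ × ℕ)) (g : ℕ × ℕ → ℕ × ℕ) (N M p : ℕ)
    (hinj : ∀ z ∈ U, ∀ z' ∈ U, g z = g z' → z = z')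
    (hmap : ∀ z ∈ U, 0 < (g z).1 ∧ (g z).1 ≤ N ∧ p ∣ (g z).1 ∧ 1 ≤ (g z).2 ∧ (g z).2 ≤ M) :
    p * U.card ≤ N * M := by
  have h1 : U.card ≤ (((Ioc 0 N).filter (fun m => p ∣ m)) ×ˢ (Icc 1 M)).card := by
    apply card_le_card_of_injOn g
    · intro z hz
      obtain ⟨h1, h2, h3, h4, h5⟩ := hmap z hz
      rw [mem_coe, mem_product, mem_filter, mem_Ioc, mem_Icc]
      exact ⟨⟨⟨h1, h2⟩, h3⟩, h4, h5⟩
    · intro z hz z' hz' h
      exact hinj z hz z' hz' h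
  rw [card_product, Nat.card_Icc, Nat.add_sub_cancel] at h1
  calc p * U.card ≤ p * (((Ioc 0 N).filter (fun m => p ∣ m)).card * M) := Nat.mul_le_mul_left _ h1
    _ = (p * ((Ioc 0 N).filter (fun m => p ∣ m)).card) * M := by ring
    _ ≤ N * M := Nat.mul_le_mul_right _ (mult_card N p)

/-- points of two lattices -/
theorem lattice (a₀ h x p : ℕ) (hh : 1 ≤ h) (hx : 1 ≤ x) [Fact p.Prime] (U : Finset (ℕ × ℕ))
    (hU : ∀ z ∈ U, z.1 ≤ a₀ * x ∧ 1 ≤ z.2 ∧ z.2 ≤ x ∧ ¬ p ∣ z.2 ∧ p ∣ z.1 ^ 2 + h ^ 2 * z.2 ^ 2) :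
    p * U.card ≤ 2 * (1 + h ^ 2) * ((2 * a₀ + h + 1) * (a₀ + h + 2)) * x ^ 2 := by
  classical
  have hp : p.Prime := Fact.out
  rcases U.eq_empty_or_nonempty with rfl | ⟨z0, hz0⟩
  · simp
  have hpx : p ≤ ((a₀ + h) * x) ^ 2 := by
    obtain ⟨h1, h2, h3, h4, h5⟩ := hU z0 hz0
    have h6 : 0 < z0.1 ^ 2 + h ^ 2 * z0.2 ^ 2 := by positivity
    have h7 := Nat.le_of_dvd h6 h5
    calc p ≤ z0.1 ^ 2 + h ^ 2 * z0.2 ^ 2 := h7
      _ ≤ (a₀ * x) ^ 2 + h ^ 2 * x ^ 2 := by gcongr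
      _ ≤ ((a₀ + h) * x) ^ 2 := by nlinarith [Nat.zero_le (a₀ * h * x ^ 2)]
  set q : ℕ := (p - 1) / (1 + h ^ 2) with hq
  set s : ℕ := Nat.sqrt q + 1 with hs
  have hs0 : 0 < s := by omega
  have hq1 : (1 + h ^ 2) * q ≤ p - 1 := Nat.mul_div_le _ _
  have hq2 : p - 1 < (1 + h ^ 2) * (q + 1) := by
    have := Nat.lt_mul_div_succ (p - 1) (show 0 < 1 + h ^ 2 by positivity)
    exact this
  have hs1 : (1 + h ^ 2) * Nat.sqrt q ^ 2 < p := by
    have h1 : Nat.sqrt q ^ 2 ≤ q := by rw [pow_two]; exact Nat.sqrt_le q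
    have h2 : (1 + h ^ 2) * Nat.sqrt q ^ 2 ≤ (1 + h ^ 2) * q := Nat.mul_le_mul_left _ h1
    have h3 := hp.pos
    omega
  have hs2 : p ≤ (1 + h ^ 2) * s ^ 2 := by
    have h1 : q + 1 ≤ s ^ 2 := by
      have := Nat.lt_succ_sqrt q
      rw [hs, pow_two]; exact this
    have h2 : (1 + h ^ 2) * (q + 1) ≤ (1 + h ^ 2) * s ^ 2 := Nat.mul_le_mul_left _ h1
    omega
  have hs3 : s ≤ (a₀ + h + 1) * x := by
    have h1 : Nat.sqrt q ≤ (a₀ + h) * x := by
      have h2 : Nat.sqrt q ^ 2 ≤ ((a₀ + h) * x) ^ 2 := by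
        calc Nat.sqrt q ^ 2 ≤ (1 + h ^ 2) * Nat.sqrt q ^ 2 := Nat.le_mul_of_pos_left _ (by positivity)
          _ ≤ p := hs1.le
          _ ≤ _ := hpx
      exact (Nat.pow_le_pow_iff_left (by norm_num)).1 h2
    rw [hs]
    calc Nat.sqrt q + 1 ≤ (a₀ + h) * x + x := by omega
      _ = _ := by ring
  set Rt := ((univ : Finset (ZMod p)).filter (fun t => t ^ 2 = -((h : ZMod p) ^ 2))) with hRt
  have hcard : U.card ≤ (Rt ×ˢ (range (a₀ * x / s + 1) ×ˢ range (x / s + 1))).card := by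
    apply card_le_card_of_injOn (fun z => ((z.1 : ZMod p) / (z.2 : ZMod p), (z.1 / s, z.2 / s)))
    · intro z hz
      obtain ⟨h1, h2, h3, h4, h5⟩ := hU z hz
      have hn' : ((z.2 : ℕ) : ZMod p) ≠ 0 := fun h0 => h4 ((ZMod.natCast_eq_zero_iff _ _).1 h0)
      have h6 : ((z.1 ^ 2 + h ^ 2 * z.2 ^ 2 : ℕ) : ZMod p) = 0 := (ZMod.natCast_eq_zero_iff _ _).2 h5
      push_cast at h6
      rw [mem_coe, mem_product, mem_product, hRt, mem_filter, mem_range, mem_range]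
      refine ⟨⟨mem_univ _, ?_⟩, ?_, ?_⟩
      · rw [div_pow, div_eq_iff (pow_ne_zero 2 hn')]
        linear_combination h6
      · exact Nat.lt_succ_of_le (Nat.div_le_div_right h1)
      · exact Nat.lt_succ_of_le (Nat.div_le_div_right h3)
    · intro z hz z' hz' heq
      obtain ⟨h1, h2, h3, h4, h5⟩ := hU z hz
      obtain ⟨h1', h2', h3', h4', h5'⟩ := hU z' hz'
      have hn : ((z.2 : ℕ) : ZMod p) ≠ 0 := fun h0 => h4 ((ZMod.natCast_eq_zero_iff _ _).1 h0)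
      have hn' : ((z'.2 : ℕ) : ZMod p) ≠ 0 := fun h0 => h4' ((ZMod.natCast_eq_zero_iff _ _).1 h0)
      simp only [Prod.mk.injEq] at heq
      obtain ⟨e1, e2, e3⟩ := heq
      have h6 : ((z.1 ^ 2 + h ^ 2 * z.2 ^ 2 : ℕ) : ZMod p) = 0 := (ZMod.natCast_eq_zero_iff _ _).2 h5
      push_cast at h6
      set t : ZMod p := (z.1 : ZMod p) / (z.2 : ZMod p) with ht
      have ht1 : (z.1 : ZMod p) = t * z.2 := by rw [ht]; field_simp
      have ht2 : (z'.1 : ZMod p) = t * z'.2 := by rw [e1]; field_simp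
      have ht3 : t ^ 2 = -((h : ZMod p) ^ 2) := by
        rw [ht1] at h6
        have : (z.2 : ZMod p) ^ 2 * (t ^ 2 + (h : ZMod p) ^ 2) = 0 := by
          rw [← h6]; ring
        rcases mul_eq_zero.1 this with h0 | h0
        · exact absurd h0 (pow_ne_zero 2 hn)
        · exact eq_neg_of_add_eq_zero_left h0
      set u : ℤ := (z.1 : ℤ) - z'.1 with hu
      set v : ℤ := (z.2 : ℤ) - z'.2 with hv
      have hdvd : (p : ℤ) ∣ u ^ 2 + (h : ℤ) ^ 2 * v ^ 2 := by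
        rw [← ZMod.intCast_zmod_eq_zero_iff_dvd, hu, hv]
        push_cast
        rw [ht1, ht2]
        linear_combination ((z.2 : ZMod p) - z'.2) ^ 2 * ht3
      have hdiv : ∀ a b : ℕ, a / s = b / s → ((a : ℤ) - b) ^ 2 ≤ (Nat.sqrt q : ℤ) ^ 2 := by
        intro a b hab
        have ha := Nat.div_add_mod a s
        have hb := Nat.div_add_mod b s
        have ha' := Nat.mod_lt a hs0
        have hb' := Nat.mod_lt b hs0
        rw [hab] at ha
        have k1 : (a : ℤ) - b ≤ Nat.sqrt q := by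
          have : a ≤ b + Nat.sqrt q := by omega
          have : (a : ℤ) ≤ b + Nat.sqrt q := by exact_mod_cast this
          linarith
        have k2 : -(Nat.sqrt q : ℤ) ≤ (a : ℤ) - b := by
          have : b ≤ a + Nat.sqrt q := by omega
          have : (b : ℤ) ≤ a + Nat.sqrt q := by exact_mod_cast this
          linarith
        exact sq_le_sq' k2 k1
      have hu2 := hdiv _ _ e2
      have hv2 := hdiv _ _ e3
      have hlt : u ^ 2 + (h : ℤ) ^ 2 * v ^ 2 < p := by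
        have k : (1 + (h : ℤ) ^ 2) * (Nat.sqrt q : ℤ) ^ 2 < p := by exact_mod_cast hs1
        have k2 : (h : ℤ) ^ 2 * v ^ 2 ≤ (h : ℤ) ^ 2 * (Nat.sqrt q : ℤ) ^ 2 :=
          mul_le_mul_of_nonneg_left hv2 (by positivity)
        calc u ^ 2 + (h : ℤ) ^ 2 * v ^ 2 ≤ (Nat.sqrt q : ℤ) ^ 2 + (h : ℤ) ^ 2 * (Nat.sqrt q : ℤ) ^ 2 :=
              add_le_add hu2 k2
          _ = (1 + (h : ℤ) ^ 2) * (Nat.sqrt q : ℤ) ^ 2 := by ring
          _ < p := k
      have hzero : u ^ 2 + (h : ℤ) ^ 2 * v ^ 2 = 0 :=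
        Int.eq_zero_of_dvd_of_nonneg_of_lt (by positivity) hlt hdvd
      have hh' : (0 : ℤ) < (h : ℤ) ^ 2 := by positivity
      have hv0 : v ^ 2 = 0 := by nlinarith [sq_nonneg u, sq_nonneg v]
      have hu0 : u ^ 2 = 0 := by rw [hv0] at hzero; linarith
      have hu0' : u = 0 := by simpa using hu0
      have hv0' : v = 0 := by simpa using hv0
      have r1 : z.1 = z'.1 := by omega
      have r2 : z.2 = z'.2 := by omega
      exact Prod.ext r1 r2
  rw [card_product, card_product, card_range, card_range] at hcard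
  have hR2 : Rt.card ≤ 2 := roots2 p _
  calc p * U.card ≤ ((1 + h ^ 2) * s ^ 2) * (2 * ((a₀ * x / s + 1) * (x / s + 1))) := by
        refine Nat.mul_le_mul hs2 (hcard.trans (Nat.mul_le_mul_right _ hR2))
    _ = 2 * (1 + h ^ 2) * ((s * (a₀ * x / s) + s) * (s * (x / s) + s)) := by ring
    _ ≤ 2 * (1 + h ^ 2) * ((a₀ * x + (a₀ + h + 1) * x) * (x + (a₀ + h + 1) * x)) := by
        exact Nat.mul_le_mul_left _ (Nat.mul_le_mul (add_le_add (Nat.mul_div_le _ _) hs3)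
          (add_le_add (Nat.mul_div_le _ _) hs3))
    _ = _ := by ring

/-- any prime -/
theorem crude (R a₀ b₀ V x p h : ℕ) (hh : 1 ≤ h) (hR : h < R) (hx : 1 ≤ x) (hp : p.Prime) :
    p * ((sec R a₀ b₀ V x).filter (fun z => p ∣ prd h z)).card ≤
      (4 * a₀ + h + 2 * (1 + h ^ 2) * ((2 * a₀ + h + 1) * (a₀ + h + 2))) * x ^ 2 := by
  classical
  have : Fact p.Prime := ⟨hp⟩
  set S := sec R a₀ b₀ V x with hS
  have hmem : ∀ z ∈ S, 1 ≤ z.1 ∧ z.1 ≤ a₀ * x ∧ 1 ≤ z.2 ∧ z.2 ≤ x ∧ h * z.2 < z.1 := by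
    intro z hz
    rw [hS, sec, mem_filter, mem_product, mem_Icc, mem_Icc] at hz
    refine ⟨hz.1.1.1, hz.1.1.2, hz.1.2.1, hz.1.2.2, ?_⟩
    have h1 : h * z.2 < R * z.2 := Nat.mul_lt_mul_of_pos_right hR hz.1.2.1
    exact h1.trans_le hz.2.1
  set U1 := S.filter (fun z => p ∣ z.1) with hU1
  set U2 := S.filter (fun z => p ∣ z.2) with hU2
  set U3 := S.filter (fun z => p ∣ z.1 - h * z.2) with hU3
  set U4 := S.filter (fun z => p ∣ z.1 + h * z.2) with hU4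
  set U5 := S.filter (fun z => ¬ p ∣ z.2 ∧ p ∣ z.1 ^ 2 + h ^ 2 * z.2 ^ 2) with hU5
  have hsub : S.filter (fun z => p ∣ prd h z) ⊆ U1 ∪ (U2 ∪ (U3 ∪ (U4 ∪ U5))) := by
    intro z hz
    rw [mem_filter] at hz
    obtain ⟨hs, hd⟩ := hz
    simp only [mem_union, hU1, hU2, hU3, hU4, hU5, mem_filter]
    by_cases hn : p ∣ z.2
    · exact Or.inr (Or.inl ⟨hs, hn⟩)
    · rw [prd] at hd
      rcases (Nat.Prime.dvd_mul hp).1 hd with hd | hd
      · rcases (Nat.Prime.dvd_mul hp).1 hd with hd | hd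
        · rcases (Nat.Prime.dvd_mul hp).1 hd with hd | hd
          · exact Or.inl ⟨hs, hd⟩
          · exact absurd hd hn
        · rcases (Nat.Prime.dvd_mul hp).1 hd with hd | hd
          · exact Or.inr (Or.inr (Or.inl ⟨hs, hd⟩))
          · exact Or.inr (Or.inr (Or.inr (Or.inl ⟨hs, hd⟩)))
      · exact Or.inr (Or.inr (Or.inr (Or.inr ⟨hs, hn, hd⟩)))
  have b1 : p * U1.card ≤ (a₀ * x) * x := by
    apply inj_bound U1 id
    · intro z _ z' _ h; exact h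
    · intro z hz
      rw [hU1, mem_filter] at hz
      obtain ⟨h1, h2, h3, h4, h5⟩ := hmem z hz.1
      exact ⟨h1, h2, hz.2, h3, h4⟩
  have b2 : p * U2.card ≤ x * (a₀ * x) := by
    apply inj_bound U2 (fun z => (z.2, z.1))
    · intro z _ z' _ h
      simp only [Prod.mk.injEq] at h
      exact Prod.ext h.2 h.1
    · intro z hz
      rw [hU2, mem_filter] at hz
      obtain ⟨h1, h2, h3, h4, h5⟩ := hmem z hz.1
      exact ⟨h3, h4, hz.2, h1, h2⟩
  have b3 : p * U3.card ≤ (a₀ * x) * x := by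
    apply inj_bound U3 (fun z => (z.1 - h * z.2, z.2))
    · intro z hz z' hz' h0
      rw [hU3, mem_filter] at hz hz'
      obtain ⟨h1, h2, h3, h4, h5⟩ := hmem z hz.1
      obtain ⟨h1', h2', h3', h4', h5'⟩ := hmem z' hz'.1
      simp only [Prod.mk.injEq] at h0
      obtain ⟨e1, e2⟩ := h0
      rw [e2] at e1 h5
      refine Prod.ext ?_ e2
      omega
    · intro z hz
      rw [hU3, mem_filter] at hz
      obtain ⟨h1, h2, h3, h4, h5⟩ := hmem z hz.1
      exact ⟨Nat.sub_pos_of_lt h5, (Nat.sub_le _ _).trans h2, hz.2, h3, h4⟩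
  have b4 : p * U4.card ≤ ((a₀ + h) * x) * x := by
    apply inj_bound U4 (fun z => (z.1 + h * z.2, z.2))
    · intro z hz z' hz' h0
      simp only [Prod.mk.injEq] at h0
      obtain ⟨e1, e2⟩ := h0
      rw [e2] at e1
      refine Prod.ext ?_ e2
      omega
    · intro z hz
      rw [hU4, mem_filter] at hz
      obtain ⟨h1, h2, h3, h4, h5⟩ := hmem z hz.1
      refine ⟨by simp only; omega, ?_, hz.2, h3, h4⟩
      calc z.1 + h * z.2 ≤ a₀ * x + h * x := add_le_add h2 (Nat.mul_le_mul_left _ h4)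
        _ = _ := by ring
  have b5 : p * U5.card ≤ 2 * (1 + h ^ 2) * ((2 * a₀ + h + 1) * (a₀ + h + 2)) * x ^ 2 := by
    apply lattice a₀ h x p hh hx
    intro z hz
    rw [hU5, mem_filter] at hz
    obtain ⟨h1, h2, h3, h4, h5⟩ := hmem z hz.1
    exact ⟨h2, h3, h4, hz.2.1, hz.2.2⟩
  have hc : (S.filter (fun z => p ∣ prd h z)).card ≤
      U1.card + (U2.card + (U3.card + (U4.card + U5.card))) := by
    refine (card_le_card hsub).trans ((card_union_le _ _).trans ?_)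
    gcongr
    refine (card_union_le _ _).trans ?_
    gcongr
    refine (card_union_le _ _).trans ?_
    gcongr
    exact card_union_le _ _
  calc p * (S.filter (fun z => p ∣ prd h z)).card
      ≤ p * (U1.card + (U2.card + (U3.card + (U4.card + U5.card)))) := Nat.mul_le_mul_left _ hc
    _ = p * U1.card + (p * U2.card + (p * U3.card + (p * U4.card + p * U5.card))) := by ring
    _ ≤ (a₀ * x) * x + (x * (a₀ * x) + ((a₀ * x) * x + (((a₀ + h) * x) * x +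
        2 * (1 + h ^ 2) * ((2 * a₀ + h + 1) * (a₀ + h + 2)) * x ^ 2))) := by gcongr
    _ = _ := by ring

/-- PY14 -/
theorem cb : S_CB := by
  classical
  refine ⟨6, by norm_num, ?_⟩
  intro 𝔅 h𝔅 hsum w h V R a₀ b₀ hh hV hR hb hRb hw ε hε
  set C₃ : ℕ := 4 * a₀ + h + 2 * (1 + h ^ 2) * ((2 * a₀ + h + 1) * (a₀ + h + 2)) with hC₃
  have hC₃pos : (0 : ℝ) < (C₃ : ℝ) + 1 := by positivity
  obtain ⟨s, hs⟩ := (summable_iff_vanishing_norm.1 hsum) (ε / (2 * ((C₃ : ℝ) + 1))) (by positivity)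
  refine ⟨⌈2 * (s.card * (2 * a₀ + 10) : ℝ) / ε⌉₊ + 1, ?_⟩
  intro x hx
  have hx1 : 1 ≤ x := by omega
  have hxs : (s.card * (2 * a₀ + 10) : ℝ) ≤ ε / 2 * x := by
    have h1 : 2 * (s.card * (2 * a₀ + 10) : ℝ) / ε ≤ x := by
      refine (Nat.le_ceil _).trans ?_
      exact_mod_cast (by omega : ⌈2 * (s.card * (2 * a₀ + 10) : ℝ) / ε⌉₊ ≤ x)
    rw [div_le_iff₀ hε] at h1
    linarith
  set S := sec R a₀ b₀ V x with hS
  have hmem : ∀ z ∈ S, 0 < prd h z := by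
    intro z hz
    rw [hS, sec, mem_filter, mem_product, mem_Icc, mem_Icc] at hz
    have h1 : h * z.2 < R * z.2 := Nat.mul_lt_mul_of_pos_right hR hz.1.2.1
    have h2 : 0 < z.1 - h * z.2 := Nat.sub_pos_of_lt (h1.trans_le hz.2.1)
    have h3 : 0 < z.1 := hz.1.1.1
    have h4 : 0 < z.2 := hz.1.2.1
    rw [prd]
    have h5 : 0 < z.1 + h * z.2 := by omega
    have h6 : 0 < z.1 ^ 2 + h ^ 2 * z.2 ^ 2 := by positivity
    exact Nat.mul_pos (Nat.mul_pos (Nat.mul_pos h3 h4) (Nat.mul_pos h2 h5)) h6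
  set Q : ℕ := S.sup (prd h) + 1 with hQ
  set F : Finset ℕ := (range Q).filter (fun p => p ∈ 𝔅 ∧ w < p) with hF
  have hsub : (S.filter (fun z => ∃ p ∈ 𝔅, w < p ∧
      p ∣ z.1 * z.2 * ((z.1 - h * z.2) * (z.1 + h * z.2)) * (z.1 ^ 2 + h ^ 2 * z.2 ^ 2))) ⊆
      F.biUnion (fun p => S.filter (fun z => p ∣ prd h z)) := by
    intro z hz
    rw [mem_filter] at hz
    obtain ⟨hzS, p, hp, hwp, hd⟩ := hz
    rw [mem_biUnion]
    refine ⟨p, ?_, ?_⟩
    · rw [hF, mem_filter, mem_range, hQ]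
      refine ⟨?_, hp, hwp⟩
      have h1 : p ≤ prd h z := Nat.le_of_dvd (hmem z hzS) hd
      have h2 : prd h z ≤ S.sup (prd h) := le_sup (f := prd h) hzS
      omega
    · rw [mem_filter]; exact ⟨hzS, hd⟩
  have hcard : ((S.filter (fun z => ∃ p ∈ 𝔅, w < p ∧
      p ∣ z.1 * z.2 * ((z.1 - h * z.2) * (z.1 + h * z.2)) * (z.1 ^ 2 + h ^ 2 * z.2 ^ 2))).card : ℝ) ≤
      ∑ p ∈ F, ((S.filter (fun z => p ∣ prd h z)).card : ℝ) := by
    exact_mod_cast (card_le_card hsub).trans card_biUnion_le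
  have hFp : ∀ p ∈ F, p.Prime ∧ Nat.Coprime V p ∧ p ∈ 𝔅 ∧ w < p := by
    intro p hp
    rw [hF, mem_filter] at hp
    have hpp := h𝔅 p hp.2.1
    refine ⟨hpp, ?_, hp.2.1, hp.2.2⟩
    rw [Nat.coprime_comm, Nat.Prime.coprime_iff_not_dvd hpp]
    intro hd
    have := hw p hpp (Dvd.dvd.mul_right hd h)
    omega
  have hsplit : ∑ p ∈ F, ((S.filter (fun z => p ∣ prd h z)).card : ℝ) =
      ∑ p ∈ F ∩ s, ((S.filter (fun z => p ∣ prd h z)).card : ℝ) +
      ∑ p ∈ F \ s, ((S.filter (fun z => p ∣ prd h z)).card : ℝ) :=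
    (sum_inter_add_sum_sdiff F s _).symm
  have hsum' : Summable (fun p : ℕ => if p ∈ 𝔅 ∧ w < p then (1 : ℝ) / p else 0) := by
    apply Summable.of_nonneg_of_le _ _ hsum
    · intro p
      split_ifs <;> positivity
    · intro p
      by_cases h1 : p ∈ 𝔅
      · by_cases h2 : w < p
        · simp [h1, h2]
        · simp [h1, h2]
      · simp [h1]
  have hA : ∑ p ∈ F ∩ s, ((S.filter (fun z => p ∣ prd h z)).card : ℝ) ≤
      6 * (∑' p : ℕ, if p ∈ 𝔅 ∧ w < p then (1 : ℝ) / p else 0) * (S.card : ℝ) +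
        ε / 2 * (x : ℝ) ^ 2 := by
    calc ∑ p ∈ F ∩ s, ((S.filter (fun z => p ∣ prd h z)).card : ℝ)
        ≤ ∑ p ∈ F ∩ s, (6 * (if p ∈ 𝔅 ∧ w < p then (1 : ℝ) / p else 0) * (S.card : ℝ) +
            (2 * a₀ + 10) * x) := by
          apply sum_le_sum
          intro p hp
          obtain ⟨hpp, hVp, hpB, hwp⟩ := hFp p (mem_inter.1 hp).1
          have h1 := fixed R a₀ b₀ V x p h hV hR hpp hVp
          rw [← hS] at h1
          have h2 : (p : ℝ) * ((S.filter (fun z => p ∣ prd h z)).card : ℝ) ≤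
              6 * (S.card : ℝ) + p * ((2 * a₀ + 10) * x) := by exact_mod_cast h1
          have hp0 : (0 : ℝ) < p := by exact_mod_cast hpp.pos
          rw [if_pos ⟨hpB, hwp⟩]
          rw [mul_comm, ← le_div_iff₀ hp0] at h2
          refine h2.trans (le_of_eq ?_)
          field_simp
      _ = 6 * (∑ p ∈ F ∩ s, (if p ∈ 𝔅 ∧ w < p then (1 : ℝ) / p else 0)) * (S.card : ℝ) +
            ((F ∩ s).card : ℝ) * ((2 * a₀ + 10) * x) := by
          rw [sum_add_distrib, ← sum_mul, ← mul_sum, sum_const, nsmul_eq_mul]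
      _ ≤ 6 * (∑' p : ℕ, if p ∈ 𝔅 ∧ w < p then (1 : ℝ) / p else 0) * (S.card : ℝ) +
        ε / 2 * (x : ℝ) ^ 2 := by
          have h1 : ∑ p ∈ F ∩ s, (if p ∈ 𝔅 ∧ w < p then (1 : ℝ) / p else 0) ≤
              ∑' p : ℕ, (if p ∈ 𝔅 ∧ w < p then (1 : ℝ) / p else 0) := by
            apply hsum'.sum_le_tsum
            intro p _
            split_ifs <;> positivity
          have h2 : ((F ∩ s).card : ℝ) ≤ s.card := by
            exact_mod_cast card_le_card inter_subset_right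
          have h3 : ((F ∩ s).card : ℝ) * ((2 * a₀ + 10) * x) ≤ ε / 2 * (x : ℝ) ^ 2 := by
            calc ((F ∩ s).card : ℝ) * ((2 * a₀ + 10) * x) ≤ s.card * ((2 * a₀ + 10) * x) :=
                  mul_le_mul_of_nonneg_right h2 (by positivity)
              _ = (s.card * (2 * a₀ + 10)) * x := by ring
              _ ≤ (ε / 2 * x) * x := mul_le_mul_of_nonneg_right hxs (by positivity)
              _ = ε / 2 * (x : ℝ) ^ 2 := by ring
          have h4 : (0 : ℝ) ≤ S.card := by positivity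
          exact add_le_add (mul_le_mul_of_nonneg_right
            (mul_le_mul_of_nonneg_left h1 (by norm_num)) h4) h3
  have hB : ∑ p ∈ F \ s, ((S.filter (fun z => p ∣ prd h z)).card : ℝ) ≤ ε / 2 * (x : ℝ) ^ 2 := by
    calc ∑ p ∈ F \ s, ((S.filter (fun z => p ∣ prd h z)).card : ℝ)
        ≤ ∑ p ∈ F \ s, ((C₃ : ℝ) * (x : ℝ) ^ 2) * (if p ∈ 𝔅 then (1 : ℝ) / p else 0) := by
          apply sum_le_sum
          intro p hp
          obtain ⟨hpp, hVp, hpB, hwp⟩ := hFp p (mem_sdiff.1 hp).1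
          have h1 := crude R a₀ b₀ V x p h hh hR hx1 hpp
          rw [← hS, ← hC₃] at h1
          have h2 : (p : ℝ) * ((S.filter (fun z => p ∣ prd h z)).card : ℝ) ≤
              (C₃ : ℝ) * (x : ℝ) ^ 2 := by exact_mod_cast h1
          have hp0 : (0 : ℝ) < p := by exact_mod_cast hpp.pos
          rw [if_pos hpB]
          rw [mul_comm, ← le_div_iff₀ hp0] at h2
          refine h2.trans (le_of_eq ?_)
          ring
      _ = ((C₃ : ℝ) * (x : ℝ) ^ 2) * ∑ p ∈ F \ s, (if p ∈ 𝔅 then (1 : ℝ) / p else 0) := by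
          rw [mul_sum]
      _ ≤ ((C₃ : ℝ) * (x : ℝ) ^ 2) * (ε / (2 * ((C₃ : ℝ) + 1))) := by
          have h1 := hs (F \ s) sdiff_disjoint
          have h2 := (Real.le_norm_self _).trans h1.le
          exact mul_le_mul_of_nonneg_left h2 (by positivity)
      _ ≤ ((((C₃ : ℝ) + 1)) * (x : ℝ) ^ 2) * (ε / (2 * ((C₃ : ℝ) + 1))) := by
          apply mul_le_mul_of_nonneg_right _ (by positivity)
          apply mul_le_mul_of_nonneg_right _ (by positivity)
          linarith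
      _ = ε / 2 * (x : ℝ) ^ 2 := by field_simp
  have hfin := hcard
  rw [hsplit] at hfin
  have hgoal : (((S).filter (fun z => ∃ p ∈ 𝔅, w < p ∧
      p ∣ z.1 * z.2 * ((z.1 - h * z.2) * (z.1 + h * z.2)) * (z.1 ^ 2 + h ^ 2 * z.2 ^ 2))).card : ℝ) ≤
      6 * (∑' p : ℕ, if p ∈ 𝔅 ∧ w < p then (1 : ℝ) / p else 0) * ((S).card : ℝ) +
        ε * (x : ℝ) ^ 2 := by
    calc _ ≤ _ := hfin
      _ ≤ (6 * (∑' p : ℕ, if p ∈ 𝔅 ∧ w < p then (1 : ℝ) / p else 0) * (S.card : ℝ) +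
        ε / 2 * (x : ℝ) ^ 2) + ε / 2 * (x : ℝ) ^ 2 := add_le_add hA hB
      _ = _ := by ring
  convert hgoal using 4

end Pool.Agent.N124.PY
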